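import Mathlib
import Pool.Agent.Lib.MP_23142e_ag.Alg

set_option autoImplicit false
open scoped LinearAlgebra.Projectivization

namespace Pool.Agent.Results.MP_23142e_ag.PlaneFailure

open MvPolynomial Pool.Agent.Lib.MP_23142e_ag

/-- binomial weights with signs -/
noncomputable def wt (d a : ℕ) : ℂ := (-1) ^ (d - a) * (d.choose a : ℂ)

lemma wt_ne_zero {d a : ℕ} (h : a ≤ d) : wt d a ≠ 0 := by
  unfold wt
  refine mul_ne_zero (pow_ne_zero _ (by norm_num)) ?_
  exact_mod_cast (Nat.choose_pos h).ne'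

lemma sum_wt (d k : ℕ) (hk : k < d) : ∑ a ∈ Finset.range (d + 1), wt d a * (a : ℂ) ^ k = 0 := by
  have h := congrFun (fwdDiff_iter_pow_eq_zero_of_lt (R := ℂ) hk) 0
  rw [fwdDiff_iter_eq_sum_shift] at h
  simp only [Pi.zero_apply] at h
  rw [← h]
  refine Finset.sum_congr rfl fun a _ => ?_
  simp [wt]

lemma sum_wt_wt {d : ℕ} {f : MvPolynomial (Fin 3) ℂ} {m : ℕ} (hf : f.IsHomogeneous m)
    (hm : m < 2 * d) :
    ∑ q ∈ Finset.range (d + 1) ×ˢ Finset.range (d + 1),
      wt d q.1 * wt d q.2 * eval (vec q.1 q.2) f = 0 := by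
  simp only [eval_eq', Finset.mul_sum]
  rw [Finset.sum_comm]
  refine Finset.sum_eq_zero fun e he => ?_
  have h5 : e 0 + e 1 + e 2 = m := by
    have h := sum_eq_of_mem_support hf he
    rw [Fin.sum_univ_three] at h
    exact h
  have key : ∑ q ∈ Finset.range (d + 1) ×ˢ Finset.range (d + 1),
      wt d q.1 * wt d q.2 * (coeff e f * ∏ i, vec q.1 q.2 i ^ e i) =
      coeff e f * ((∑ a ∈ Finset.range (d + 1), wt d a * (a : ℂ) ^ e 0) *
        (∑ b ∈ Finset.range (d + 1), wt d b * (b : ℂ) ^ e 1)) := by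
    rw [Finset.sum_mul_sum, ← Finset.sum_product', Finset.mul_sum]
    refine Finset.sum_congr rfl fun q _ => ?_
    simp [Fin.prod_univ_three, vec]
    ring
  rw [key]
  rcases (by omega : e 0 < d ∨ e 1 < d) with h | h
  · rw [sum_wt d _ h]; ring
  · rw [sum_wt d _ h]; ring

/-- index set of the counterexample: the grid minus `g` diagonals -/
def idx (d g : ℕ) : Finset (ℕ × ℕ) :=
  (Finset.range (d + 1) ×ˢ Finset.range (d + 1)).filter (fun q => ¬ (q.1 < q.2 ∧ q.2 ≤ q.1 + g))

lemma mem_idx {d g a b : ℕ} :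
    (a, b) ∈ idx d g ↔ a ≤ d ∧ b ≤ d ∧ ¬ (a < b ∧ b ≤ a + g) := by
  simp only [idx, Finset.mem_filter, Finset.mem_product, Finset.mem_range]
  constructor
  · rintro ⟨⟨h1, h2⟩, h3⟩
    exact ⟨by omega, by omega, h3⟩
  · rintro ⟨h1, h2, h3⟩
    exact ⟨⟨by omega, by omega⟩, h3⟩

lemma sum_range_succ_id_two (n : ℕ) : 2 * ∑ a ∈ Finset.range n, (a + 1) = n * (n + 1) := by
  induction n with
  | zero => simp
  | succ n ih => rw [Finset.sum_range_succ, mul_add, ih]; ring

lemma card_idx_le {d g t : ℕ} (ht : t + g = d) :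
    2 * (idx d g).card ≤ (d + 1) * (d + 2) + t * (t + 1) := by
  have hsub : idx d g ⊆
      ((Finset.range (d + 1)).sigma (fun a => Finset.range (a + 1))).image (fun x => (x.1, x.2)) ∪
      ((Finset.range t).sigma (fun a => Finset.range (a + 1))).image
        (fun x => (t - 1 - x.1, d - x.2)) := by
    rintro ⟨a, b⟩ hab
    rw [mem_idx] at hab
    obtain ⟨h1, h2, h3⟩ := hab
    simp only [Finset.mem_union, Finset.mem_image, Finset.mem_sigma, Finset.mem_range,
      Prod.mk.injEq, Sigma.exists]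
    by_cases hba : b ≤ a
    · left
      exact ⟨a, b, ⟨by omega, by omega⟩, rfl, rfl⟩
    · right
      exact ⟨t - 1 - a, d - b, ⟨by omega, by omega⟩, by omega, by omega⟩
  have h1 := Finset.card_le_card hsub
  have h2 := (Finset.card_union_le _ _).trans (Nat.add_le_add
    (Finset.card_image_le (s := (Finset.range (d + 1)).sigma (fun a => Finset.range (a + 1)))
      (f := fun x : (_ : ℕ) × ℕ => (x.1, x.2)))
    (Finset.card_image_le (s := (Finset.range t).sigma (fun a => Finset.range (a + 1)))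
      (f := fun x : (_ : ℕ) × ℕ => (t - 1 - x.1, d - x.2))))
  have h3 := h1.trans h2
  rw [Finset.card_sigma, Finset.card_sigma] at h3
  simp only [Finset.card_range] at h3
  have h4 := sum_range_succ_id_two (d + 1)
  have h5 := sum_range_succ_id_two t
  calc 2 * (idx d g).card ≤ 2 * (∑ a ∈ Finset.range (d + 1), (a + 1)
        + ∑ a ∈ Finset.range t, (a + 1)) := Nat.mul_le_mul_left 2 h3
    _ = (d + 1) * (d + 2) + t * (t + 1) := by rw [mul_add, h4, h5]

/-- the point set -/
noncomputable def pts (d g : ℕ) : Finset (ℙ ℂ (Fin 3 → ℂ)) :=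
  (idx d g).map ⟨pt, pt_injective⟩

lemma mem_pts {d g a b : ℕ} (h : (a, b) ∈ idx d g) : pt (a, b) ∈ pts d g := by
  simp only [pts, Finset.mem_map]
  exact ⟨(a, b), h, rfl⟩

/-- the product of the `g` diagonals -/
noncomputable def diag (g : ℕ) : MvPolynomial (Fin 3) ℂ :=
  ∏ k ∈ Finset.range g, (X 1 - X 0 - C ((k : ℂ) + 1) * X 2)

lemma diag_isHomogeneous (g : ℕ) : (diag g).IsHomogeneous g := by
  have h := IsHomogeneous.prod (Finset.range g)
    (fun k : ℕ => (X 1 - X 0 - C ((k : ℂ) + 1) * X 2 : MvPolynomial (Fin 3) ℂ)) (fun _ => 1)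
    (fun k _ => ((isHomogeneous_X ℂ 1).sub (isHomogeneous_X ℂ 0)).sub
      (isHomogeneous_C_mul_X _ _))
  simpa [diag] using h

lemma eval_diag (g a b : ℕ) :
    eval (vec a b) (diag g) = ∏ k ∈ Finset.range g, ((b : ℂ) - a - (k + 1)) := by
  simp [diag, vec]

lemma eval_diag_eq_zero {g a b : ℕ} (h : a < b ∧ b ≤ a + g) : eval (vec a b) (diag g) = 0 := by
  rw [eval_diag]
  refine Finset.prod_eq_zero (i := b - a - 1) (by rw [Finset.mem_range]; omega) ?_
  obtain ⟨c, hc⟩ := Nat.exists_eq_add_of_lt h.1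
  have : b - a - 1 = c := by omega
  rw [this, hc]
  push_cast
  ring

lemma eval_diag_ne_zero {g a b : ℕ} (h : ¬ (a < b ∧ b ≤ a + g)) :
    eval (vec a b) (diag g) ≠ 0 := by
  rw [eval_diag]
  refine Finset.prod_ne_zero_iff.mpr fun k hk h0 => h ?_
  rw [Finset.mem_range] at hk
  have h1 : (b : ℂ) = ((a + (k + 1) : ℕ) : ℂ) := by
    push_cast
    linear_combination h0
  have h2 : b = a + (k + 1) := by exact_mod_cast h1
  omega

lemma pts_cb {d g m : ℕ} (hg : m + g < 2 * d) (p : ℙ ℂ (Fin 3 → ℂ)) (hp : p ∈ pts d g)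
    (f : MvPolynomial (Fin 3) ℂ) (hf : f.IsHomogeneous m)
    (h : ∀ q ∈ pts d g, q ≠ p → eval q.rep f = 0) : eval p.rep f = 0 := by
  simp only [pts, Finset.mem_map, Function.Embedding.coeFn_mk] at hp
  obtain ⟨⟨a, b⟩, hab, rfl⟩ := hp
  rw [eval_rep_eq_zero_iff hf]
  have hab' := mem_idx.mp hab
  have h1 := sum_wt_wt (d := d) ((diag_isHomogeneous g).mul hf) (by omega)
  rw [Finset.sum_eq_single_of_mem (a, b)
    (by rw [Finset.mem_product, Finset.mem_range, Finset.mem_range]; constructor <;> simp <;> omega)] at h1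
  · simp only [map_mul] at h1
    have e1 := wt_ne_zero hab'.1
    have e2 := wt_ne_zero hab'.2.1
    have e3 := eval_diag_ne_zero hab'.2.2
    simpa [e1, e2, e3] using h1
  · rintro ⟨a', b'⟩ hq hne
    rw [Finset.mem_product, Finset.mem_range, Finset.mem_range] at hq
    simp only at hq
    by_cases hd : a' < b' ∧ b' ≤ a' + g
    · rw [map_mul, eval_diag_eq_zero hd]; ring
    · have h3 : eval (vec a' b') f = 0 := by
        have h4 := h (pt (a', b')) (mem_pts (mem_idx.mpr ⟨by omega, by omega, hd⟩))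
          (fun h => hne (pt_injective h))
        exact (eval_rep_eq_zero_iff hf (a', b')).mp h4
      rw [map_mul, h3]; ring

/-- A form vanishing on the affine chart is zero. -/
lemma eq_zero_of_affine {F : MvPolynomial (Fin 3) ℂ} {D : ℕ} (hhom : F.IsHomogeneous D)
    (hxy : ∀ (x y : ℂ), eval ![x, y, 1] F = 0) : F = 0 := by
  have hall : F * X 2 = 0 := by
    refine MvPolynomial.funext fun v => ?_
    rw [map_mul, eval_X, map_zero]
    rcases eq_or_ne (v 2) 0 with h0 | h0
    · rw [h0, mul_zero]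
    · have hv : v = v 2 • ![v 0 / v 2, v 1 / v 2, 1] := by
        ext i
        fin_cases i <;> simp <;> field_simp
      rw [hv, eval_smul_of_isHomogeneous hhom, hxy]
      simp
  exact (mul_eq_zero.mp hall).resolve_right (X_ne_zero 2)

lemma poly_zero {p : Polynomial ℂ} {A : Finset ℕ} (hp : p.natDegree < A.card)
    (h : ∀ a ∈ A, p.eval (a : ℂ) = 0) : p = 0 := by
  refine Polynomial.eq_zero_of_natDegree_lt_card_of_eval_eq_zero' p
    (A.image (fun a : ℕ => (a : ℂ))) ?_ ?_
  · intro x hx
    simp only [Finset.mem_image] at hx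
    obtain ⟨a, ha, rfl⟩ := hx
    exact h a ha
  · rwa [Finset.card_image_of_injective _ Nat.cast_injective]

/-- A form of degree `d` vanishing at `(a : b : 1)` for all `b ≤ a ≤ d` is zero. -/
lemma eq_zero_of_triangle {F : MvPolynomial (Fin 3) ℂ} {d : ℕ} (hF : F.IsHomogeneous d)
    (h : ∀ a b, b ≤ a → a ≤ d → eval (vec a b) F = 0) : F = 0 := by
  -- coefficients with respect to the first variable
  set P : ℂ → Polynomial ℂ := fun y => Polynomial.map (eval ![y, 1]) (finSuccEquiv ℂ 2 F) with hP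
  have hPeval : ∀ x y : ℂ, (P y).eval x = eval ![x, y, 1] F := by
    intro x y
    rw [hP]
    have := eval_eq_eval_mv_eval' (R := ℂ) (n := 2) ![y, 1] x F
    rw [← this]
    rfl
  set Q : ℕ → Polynomial ℂ := fun k => aeval ![Polynomial.X, 1] ((finSuccEquiv ℂ 2 F).coeff k)
    with hQ
  have hQeval : ∀ k (y : ℂ), (Q k).eval y = (P y).coeff k := by
    intro k y
    rw [hP, hQ]
    simp only [Polynomial.coeff_map]
    have h1 := MvPolynomial.comp_aeval_apply (φ := Polynomial.aeval y)
      (![Polynomial.X, 1] : Fin 2 → Polynomial ℂ) ((finSuccEquiv ℂ 2 F).coeff k)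
    rw [Polynomial.coe_aeval_eq_eval] at h1
    rw [h1, ← MvPolynomial.coe_aeval_eq_eval]
    have : (fun i => Polynomial.eval y ((![Polynomial.X, 1] : Fin 2 → Polynomial ℂ) i)) =
        ![y, 1] := by
      ext i
      fin_cases i <;> simp
    rw [this]
    rfl
  have hQdeg : ∀ k, k ≤ d → (Q k).natDegree ≤ d - k := by
    intro k hk
    have h1 : ((finSuccEquiv ℂ 2 F).coeff k).IsHomogeneous (d - k) :=
      hF.finSuccEquiv_coeff_isHomogeneous k (d - k) (by omega)
    have := MvPolynomial.aeval_natDegree_le ((finSuccEquiv ℂ 2 F).coeff k) h1.totalDegree_le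
      ![Polynomial.X, 1] (n := 1) (by
        intro i
        fin_cases i <;> simp)
    rw [mul_one] at this
    exact this
  have hPdeg : ∀ y k, d < k → (P y).coeff k = 0 := by
    intro y k hk
    rw [hP]
    simp only [Polynomial.coeff_map]
    rw [Polynomial.coeff_eq_zero_of_natDegree_lt, map_zero]
    have h1 := natDegree_finSuccEquiv F
    have h2 := degreeOf_le_totalDegree F 0
    have h3 := hF.totalDegree_le
    omega
  have hrow : ∀ b : ℕ, b ≤ d → P (b : ℂ) = 0 := by
    intro b
    induction b using Nat.strong_induction_on with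
    | _ b ih =>
      intro hb
      have hc : ∀ k, d - b < k → (P (b : ℂ)).coeff k = 0 := by
        intro k hk
        rcases le_or_gt k d with hkd | hkd
        · have hQ0 : Q k = 0 := by
            refine poly_zero (A := Finset.range b) ?_ ?_
            · rw [Finset.card_range]
              have := hQdeg k hkd
              omega
            · intro i hi
              rw [Finset.mem_range] at hi
              rw [hQeval, ih i hi (by omega), Polynomial.coeff_zero]
          rw [← hQeval, hQ0, Polynomial.eval_zero]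
        · exact hPdeg _ k hkd
      have hdeg : (P (b : ℂ)).natDegree ≤ d - b :=
        Polynomial.natDegree_le_iff_coeff_eq_zero.mpr hc
      refine poly_zero (A := Finset.Icc b d) ?_ ?_
      · rw [Nat.card_Icc]; omega
      · intro a ha
        rw [Finset.mem_Icc] at ha
        rw [hPeval]
        exact h a b ha.1 ha.2
  have hQ0 : ∀ k, k ≤ d → Q k = 0 := by
    intro k hk
    refine poly_zero (A := Finset.range (d + 1)) ?_ ?_
    · rw [Finset.card_range]
      have := hQdeg k hk
      omega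
    · intro i hi
      rw [Finset.mem_range] at hi
      rw [hQeval, hrow i (by omega), Polynomial.coeff_zero]
  refine eq_zero_of_affine hF fun x y => ?_
  rw [← hPeval]
  have : P y = 0 := by
    ext k
    rcases le_or_gt k d with hkd | hkd
    · rw [← hQeval, hQ0 k hkd]; simp
    · rw [hPdeg y k hkd]; simp
  rw [this, Polynomial.eval_zero]

/-- For all `d ≥ 3` and `d < m < 2d` there is a finite set `S` of points of the complex projective
plane which satisfies the Cayley-Bacharach condition for forms of degree `m`, has at most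
`(d+3)m/2 + 1` points, and lies on no plane curve of degree `d`. -/
theorem result (d m : ℕ) (hd : 3 ≤ d) (hdm : d < m) (hmd : m < 2 * d) :
    ∃ S : Finset (ℙ ℂ (Fin 3 → ℂ)),
      (∀ p ∈ S, ∀ f : MvPolynomial (Fin 3) ℂ, f.IsHomogeneous m →
        (∀ q ∈ S, q ≠ p → MvPolynomial.eval q.rep f = 0) → MvPolynomial.eval p.rep f = 0) ∧
      (S.card : ℝ) ≤ ((d : ℝ) + 3) / 2 * (m : ℝ) + 1 ∧
      ∀ F : MvPolynomial (Fin 3) ℂ, F.IsHomogeneous d →
        (∀ p ∈ S, MvPolynomial.eval p.rep F = 0) → F = 0 := by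
  obtain ⟨s, rfl⟩ := Nat.exists_eq_add_of_lt hdm
  obtain ⟨g, hg⟩ := Nat.exists_eq_add_of_lt hmd
  refine ⟨pts d g, fun p hp f hf h => pts_cb (by omega) p hp f hf h, ?_, ?_⟩
  · have h1 := card_idx_le (d := d) (g := g) (t := s + 2) (by omega)
    have h2 : (pts d g).card = (idx d g).card := Finset.card_map _
    rw [h2]
    have h3 : (2 * (idx d g).card : ℝ) ≤ (d + 1) * (d + 2) + (s + 2) * (s + 2 + 1) := by
      exact_mod_cast h1
    have h4 : (2 : ℝ) ≤ (s + 1) * (g + 1) := by
      have : 2 ≤ (s + 1) * (g + 1) := by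
        have h5 : 2 ≤ s + g + 1 := by omega
        nlinarith [Nat.zero_le (s * g)]
      exact_mod_cast this
    have h6 : (d : ℝ) = s + g + 2 := by
      have : d = s + g + 2 := by omega
      exact_mod_cast this
    push_cast
    nlinarith
  · intro F hF hS
    refine eq_zero_of_triangle hF fun a b hba had => ?_
    have h1 := hS (pt (a, b)) (mem_pts (mem_idx.mpr ⟨by omega, by omega, by omega⟩))
    exact (eval_rep_eq_zero_iff hF (a, b)).mp h1

end Pool.Agent.Results.MP_23142e_ag.PlaneFailure
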